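import Pool.Agent.THS.StmtsN

/-!
# THS, row HFS (helper6): finite support of the local norms
-/

set_option autoImplicit false

namespace Pool.Agent.THS.H6

open Pool.Agent.THS

/-- HFS -/
theorem hfs : HfsStatement := by
  intro K _ _ ι _ x hx
  obtain ⟨i0, hi0⟩ : ∃ i, x i ≠ 0 := by
    by_contra h
    push Not at h
    exact hx (funext h)
  have h1 : (⋃ i : ι, {v : NumberField.FinitePlace K | x i ≠ 0 ∧ v (x i) ≠ 1}).Finite := by
    refine Set.finite_iUnion fun i => ?_
    by_cases hi : x i = 0
    · refine Set.Finite.subset Set.finite_empty ?_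
      rintro v ⟨hv, -⟩
      exact absurd hi hv
    · refine Set.Finite.subset (NumberField.FinitePlace.hasFiniteMulSupport hi) ?_
      rintro v ⟨-, hv⟩
      exact hv
  refine h1.subset ?_
  intro v hv
  by_contra hc
  apply hv
  have h2 : ∀ i, x i ≠ 0 → v.val (x i) = 1 := by
    intro i hi
    by_contra h3
    exact hc (Set.mem_iUnion.2 ⟨i, hi, h3⟩)
  have h3 : ∀ i, v.val (x i) ≤ 1 := by
    intro i
    by_cases hi : x i = 0
    · rw [hi, map_zero]; exact zero_le_one
    · exact (h2 i hi).le
  unfold nv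
  have : Nonempty ι := ⟨i0⟩
  refine le_antisymm (ciSup_le h3) ?_
  calc (1 : ℝ) = v.val (x i0) := (h2 i0 hi0).symm
    _ ≤ ⨆ i, v.val (x i) :=
      le_ciSup (f := fun i => v.val (x i)) (Set.finite_range _).bddAbove i0

end Pool.Agent.THS.H6
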